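import Pool.Agent.U136.DX.Stm4

set_option autoImplicit false

/-! Project DX, package TOP: only the principal part matters. -/

namespace Pool.Agent.U139.DX.TOP

open MvPolynomial Pool.Agent.U136.DX

/-- iterated derivatives -/
noncomputable def Dl (l : List (Fin 3)) (P : MvPolynomial (Fin 3) ℝ) : MvPolynomial (Fin 3) ℝ :=
  l.foldr (fun i R => pderiv i R) P

theorem Dl_cons (i : Fin 3) (l : List (Fin 3)) (P : MvPolynomial (Fin 3) ℝ) :
    Dl (i :: l) P = pderiv i (Dl l P) := rfl

theorem Dl_add (l : List (Fin 3)) (P Q : MvPolynomial (Fin 3) ℝ) :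
    Dl l (P + Q) = Dl l P + Dl l Q := by
  induction l with
  | nil => rfl
  | cons i l ih => rw [Dl_cons, Dl_cons, Dl_cons, ih, map_add]

theorem Dl_hom {d : ℕ} {P : MvPolynomial (Fin 3) ℝ} (h : P.IsHomogeneous d) (l : List (Fin 3)) :
    (Dl l P).IsHomogeneous (d - l.length) := by
  induction l with
  | nil => simpa [Dl] using h
  | cons i l ih =>
    rw [Dl_cons, List.length_cons, ← Nat.sub_sub]
    exact ih.pderiv

/-- all monomials have degree less than `k` -/
def Low (k : ℕ) (R : MvPolynomial (Fin 3) ℝ) : Prop := ∀ m, coeff m R ≠ 0 → m.degree < k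

theorem Low.pd {k : ℕ} {R : MvPolynomial (Fin 3) ℝ} (h : Low (k + 1) R) (i : Fin 3) :
    Low k (pderiv i R) := by
  intro m hm
  rw [coeff_pderiv] at hm
  have h1 : coeff (m + Finsupp.single i 1) R ≠ 0 := left_ne_zero_of_mul hm
  have h2 := h _ h1
  rw [map_add, Finsupp.degree_single] at h2
  omega

theorem Low.Dl {n : ℕ} {R : MvPolynomial (Fin 3) ℝ} (l : List (Fin 3)) (h : Low (l.length + n) R) :
    Low n (Dl l R) := by
  induction l generalizing n with
  | nil => simpa [TOP.Dl] using h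
  | cons i l ih =>
    rw [Dl_cons]
    refine (ih (n := n + 1) ?_).pd i
    rw [List.length_cons] at h
    rwa [show l.length + (n + 1) = l.length + 1 + n by omega]

theorem low_of_totalDegree {d : ℕ} {q : MvPolynomial (Fin 3) ℝ} (h : q.totalDegree < d) : Low d q := by
  intro m hm
  have h1 : m ∈ q.support := mem_support_iff.2 hm
  have h2 := le_totalDegree h1
  have h3 : m.degree = m.sum fun _ e => e := rfl
  omega

/-- spans of the derivatives of fixed degree -/
noncomputable def A (d n : ℕ) (p : MvPolynomial (Fin 3) ℝ) : Submodule ℝ (MvPolynomial (Fin 3) ℝ) :=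
  Submodule.span ℝ {Q | ∃ l : List (Fin 3), l ≠ [] ∧ l.length + n = d ∧ Q = Dl l p}

theorem A_step {d n : ℕ} {p : MvPolynomial (Fin 3) ℝ} (i : Fin 3) {R : MvPolynomial (Fin 3) ℝ}
    (h : R ∈ A d (n + 1) p) : pderiv i R ∈ A d n p := by
  unfold A at h
  induction h using Submodule.span_induction with
  | mem x hx =>
    obtain ⟨l, hl, hd, rfl⟩ := hx
    exact Submodule.subset_span ⟨i :: l, by simp, by rw [List.length_cons]; omega, rfl⟩
  | zero => rw [map_zero]; exact Submodule.zero_mem _
  | add x y _ _ hx hy => rw [map_add]; exact Submodule.add_mem _ hx hy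
  | smul a x _ hx => rw [(pderiv i).map_smul]; exact Submodule.smul_mem _ _ hx

theorem mono_five {d : ℕ} {p : MvPolynomial (Fin 3) ℝ} (hp : p.IsHomogeneous d)
    {R : MvPolynomial (Fin 3) ℝ} (hR : R.IsHomogeneous 5) (h : R ∈ Submodule.span ℝ (Der p)) :
    R ∈ A d 5 p := by
  have key : ∀ S ∈ Submodule.span ℝ (Der p), homogeneousComponent 5 S ∈ A d 5 p := by
    intro S hS
    induction hS using Submodule.span_induction with
    | mem x hx =>
      obtain ⟨l, hl, rfl⟩ := hx
      have h1 : homogeneousComponent 5 (Dl l p) = if 5 = d - l.length then Dl l p else 0 :=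
        homogeneousComponent_of_mem (Dl_hom hp l)
      change homogeneousComponent 5 (Dl l p) ∈ _
      rw [h1]
      split_ifs with h2
      · exact Submodule.subset_span ⟨l, hl, by omega, rfl⟩
      · exact Submodule.zero_mem _
    | zero => rw [map_zero]; exact Submodule.zero_mem _
    | add x y _ _ hx hy => rw [map_add]; exact Submodule.add_mem _ hx hy
    | smul a x _ hx => rw [map_smul]; exact Submodule.smul_mem _ _ hx
  have h2 := key R h
  rwa [homogeneousComponent_of_mem hR, if_pos rfl] at h2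

theorem mono_le {d : ℕ} {p : MvPolynomial (Fin 3) ℝ}
    (h5 : ∀ m : Fin 3 →₀ ℕ, m.degree = 5 → monomial m (1 : ℝ) ∈ A d 5 p) (k : ℕ) (hk : k ≤ 5) :
    ∀ m : Fin 3 →₀ ℕ, m.degree = 5 - k → monomial m (1 : ℝ) ∈ A d (5 - k) p := by
  induction k with
  | zero => exact h5
  | succ k ih =>
    intro m hm
    have h1 : 5 - k = 5 - (k + 1) + 1 := by omega
    have h2 := ih (by omega) (m + Finsupp.single 0 1) (by
      rw [map_add, Finsupp.degree_single, hm]; omega)
    rw [h1] at h2
    have h3 := A_step 0 h2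
    rw [pderiv_monomial] at h3
    have h4 : m + Finsupp.single 0 1 - Finsupp.single 0 1 = m := add_tsub_cancel_right _ _
    rw [h4, one_mul] at h3
    have h5 : ((m + Finsupp.single 0 1 : Fin 3 →₀ ℕ) 0 : ℝ) ≠ 0 := by
      have : (m + Finsupp.single 0 1 : Fin 3 →₀ ℕ) 0 ≠ 0 := by simp
      exact_mod_cast this
    have h6 := Submodule.smul_mem _ (((m + Finsupp.single 0 1 : Fin 3 →₀ ℕ) 0 : ℝ)⁻¹) h3
    rwa [smul_monomial, smul_eq_mul, inv_mul_cancel₀ h5] at h6

theorem low_mem {n : ℕ} {R : MvPolynomial (Fin 3) ℝ} (hR : Low n R)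
    (W : Submodule ℝ (MvPolynomial (Fin 3) ℝ))
    (hW : ∀ m : Fin 3 →₀ ℕ, m.degree < n → monomial m (1 : ℝ) ∈ W) : R ∈ W := by
  rw [R.as_sum]
  refine Submodule.sum_mem _ fun m hm => ?_
  have h1 := Submodule.smul_mem W (coeff m R) (hW m (hR m (mem_support_iff.1 hm)))
  rwa [smul_monomial, smul_eq_mul, mul_one] at h1

theorem t_TOP : S_TOP := by
  intro d p q hp hq hS
  have hlow : Low d q := low_of_totalDegree hq
  have e : ∀ m : Fin 3 →₀ ℕ, monomial m (1 : ℝ) = ∏ i, X i ^ m i := by
    intro m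
    rw [monomial_eq, C_1, one_mul, Finsupp.prod_fintype]
    intro i; exact pow_zero _
  have deg : ∀ m : Fin 3 →₀ ℕ, m.degree = ∑ i, m i := fun m => Finsupp.degree_eq_sum m
  have h5 : ∀ m : Fin 3 →₀ ℕ, m.degree = 5 → monomial m (1 : ℝ) ∈ A d 5 p := by
    intro m hm
    refine mono_five hp ?_ ?_
    · exact isHomogeneous_monomial _ hm
    · rw [e m]; exact hS (fun i => m i) (by rw [← deg m, hm])
  have hA : ∀ n ≤ 5, ∀ m : Fin 3 →₀ ℕ, m.degree = n → monomial m (1 : ℝ) ∈ A d n p := by
    intro n hn m hm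
    have h1 := mono_le h5 (5 - n) (by omega) m (by omega)
    rwa [show 5 - (5 - n) = n by omega] at h1
  have hW : ∀ n ≤ 5, ∀ m : Fin 3 →₀ ℕ, m.degree = n →
      monomial m (1 : ℝ) ∈ Submodule.span ℝ (Der (p + q)) := by
    intro n
    induction n using Nat.strong_induction_on with
    | _ n ih =>
      intro hn m hm
      have h1 := hA n hn m hm
      have h2 : A d n p ≤ Submodule.span ℝ (Der (p + q)) := by
        unfold A
        rw [Submodule.span_le]
        rintro _ ⟨l, hl, hd, rfl⟩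
        have h3 : Dl l p = Dl l (p + q) - Dl l q := by rw [Dl_add]; ring
        change Dl l p ∈ Submodule.span ℝ (Der (p + q))
        rw [h3]
        refine Submodule.sub_mem _ (Submodule.subset_span ⟨l, hl, rfl⟩) ?_
        have h4 : Low n (Dl l q) := Low.Dl l (by rw [hd]; exact hlow)
        exact low_mem h4 _ fun m' hm' => ih m'.degree hm' (by omega) m' rfl
      exact h2 h1
  intro β hβ
  have h1 := hW 5 le_rfl (Finsupp.equivFunOnFinite.symm β) (by
    rw [deg]; simpa using hβ)
  rw [e] at h1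
  simpa using h1

theorem t_HOM : S_HOM := by
  intro e m
  unfold lapP
  have h1 : (∑ i : Fin 3, C (e i) * X i : MvPolynomial (Fin 3) ℝ).IsHomogeneous 1 :=
    IsHomogeneous.sum _ _ _ fun i _ => isHomogeneous_C_mul_X _ _
  have h2 : (∑ i : Fin 3, X i ^ 2 : MvPolynomial (Fin 3) ℝ).IsHomogeneous 2 :=
    IsHomogeneous.sum _ _ _ fun i _ => isHomogeneous_X_pow _ _
  have h3 := h1.mul (h2.pow m)
  rwa [show 1 + 2 * m = 2 * m + 1 by omega] at h3

end Pool.Agent.U139.DX.TOP
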